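import Mathlib

/-!
MP_2928c2 (Q1), negative answer.  For every `n ≥ 2` and every finite semigroup (in particular every
finite monoid) `F`, the variety generated by the grammic monoid of rank `n` is neither `var(F)` nor
`var(F) ∨ Com`.
-/

namespace Pool.Agent.Results.MP_2928c2_al.GrammicNotFinite

/-- `s` is a weakly increasing subsequence of `w` with all letters in `{p,…,q}`. -/
def IsSub {n : ℕ} (p q : Fin n) (w s : List (Fin n)) : Prop :=
  s.Sublist w ∧ s.Pairwise (· ≤ ·) ∧ ∀ a ∈ s, p ≤ a ∧ a ≤ q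

/-- `ℓ_{p,q}(w)`: the largest length of a weakly increasing subsequence of `w` all of whose letters
lie in `{p,…,q}`. -/
noncomputable def ell {n : ℕ} (p q : Fin n) (w : List (Fin n)) : ℕ :=
  sSup {k | ∃ s, IsSub p q w s ∧ s.length = k}

lemma bddAbove_set {n : ℕ} (p q : Fin n) (w : List (Fin n)) :
    BddAbove {k | ∃ s, IsSub p q w s ∧ s.length = k} :=
  ⟨w.length, by rintro k ⟨s, hs, rfl⟩; exact hs.1.length_le⟩

lemma le_ell {n : ℕ} {p q : Fin n} {w s : List (Fin n)} (h : IsSub p q w s) :
    s.length ≤ ell p q w :=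
  le_csSup (bddAbove_set p q w) ⟨s, h, rfl⟩

lemma exists_ell {n : ℕ} (p q : Fin n) (w : List (Fin n)) :
    ∃ s, IsSub p q w s ∧ s.length = ell p q w := by
  have h := Nat.sSup_mem (s := {k | ∃ s, IsSub p q w s ∧ s.length = k})
    ⟨0, [], ⟨List.nil_sublist _, List.Pairwise.nil, by simp⟩, rfl⟩ (bddAbove_set p q w)
  exact h

/-- the relation defining the grammic monoid -/
def gram {n : ℕ} (u v : List (Fin n)) : Prop := ∀ p q : Fin n, p ≤ q → ell p q u = ell p q v

lemma gram_append_le {n : ℕ} {u v u' v' : List (Fin n)} (hu : gram u u') (hv : gram v v')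
    (p q : Fin n) (hpq : p ≤ q) : ell p q (u ++ v) ≤ ell p q (u' ++ v') := by
  obtain ⟨s, ⟨hs1, hs2, hs3⟩, hs4⟩ := exists_ell p q (u ++ v)
  rw [← hs4]
  obtain ⟨s1, s2, rfl, h1, h2⟩ := List.sublist_append_iff.mp hs1
  rw [List.pairwise_append] at hs2
  obtain ⟨hp1, hp2, hp3⟩ := hs2
  -- a separating letter
  obtain ⟨r, hpr, hrq, hr1, hr2⟩ : ∃ r : Fin n, p ≤ r ∧ r ≤ q ∧ (∀ a ∈ s1, a ≤ r) ∧
      ∀ a ∈ s2, r ≤ a := by
    rcases List.eq_nil_or_concat s2 with h | _
    · exact ⟨q, hpq, le_rfl, fun a ha => (hs3 a (by simp [ha])).2, by simp [h]⟩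
    · cases s2 with
      | nil => exact ⟨q, hpq, le_rfl, fun a ha => (hs3 a (by simp [ha])).2, by simp⟩
      | cons c t =>
        refine ⟨c, (hs3 c (by simp)).1, (hs3 c (by simp)).2, fun a ha => hp3 a ha c (by simp), ?_⟩
        intro a ha
        rw [List.mem_cons] at ha
        rcases ha with rfl | ha
        · exact le_rfl
        · exact (List.pairwise_cons.mp hp2).1 a ha
  have i1 : IsSub p r u s1 := ⟨h1, hp1, fun a ha => ⟨(hs3 a (by simp [ha])).1, hr1 a ha⟩⟩
  have i2 : IsSub r q v s2 := ⟨h2, hp2, fun a ha => ⟨hr2 a ha, (hs3 a (by simp [ha])).2⟩⟩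
  obtain ⟨t1, ⟨ht1, ht1', ht1''⟩, hl1⟩ := exists_ell p r u'
  obtain ⟨t2, ⟨ht2, ht2', ht2''⟩, hl2⟩ := exists_ell r q v'
  have e1 : s1.length ≤ t1.length := by rw [hl1, ← hu p r hpr]; exact le_ell i1
  have e2 : s2.length ≤ t2.length := by rw [hl2, ← hv r q hrq]; exact le_ell i2
  have i3 : IsSub p q (u' ++ v') (t1 ++ t2) := by
    refine ⟨ht1.append ht2, ?_, ?_⟩
    · rw [List.pairwise_append]
      exact ⟨ht1', ht2', fun a ha b hb => (ht1'' a ha).2.trans (ht2'' b hb).1⟩
    · intro a ha
      rw [List.mem_append] at ha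
      rcases ha with ha | ha
      · exact ⟨(ht1'' a ha).1, (ht1'' a ha).2.trans hrq⟩
      · exact ⟨hpr.trans (ht2'' a ha).1, (ht2'' a ha).2⟩
  have := le_ell i3
  rw [List.length_append] at this ⊢
  omega

/-- The grammic congruence. -/
def grammicCon (n : ℕ) : Con (FreeMonoid (Fin n)) where
  r u v := gram (FreeMonoid.toList u) (FreeMonoid.toList v)
  iseqv := ⟨fun _ _ _ _ => rfl, fun h p q hpq => (h p q hpq).symm,
    fun h h' p q hpq => (h p q hpq).trans (h' p q hpq)⟩
  mul' := by
    intro u u' v v' hu hv p q hpq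
    rw [FreeMonoid.toList_mul, FreeMonoid.toList_mul]
    refine le_antisymm (gram_append_le hu hv p q hpq) (gram_append_le ?_ ?_ p q hpq)
    · exact fun p q hpq => (hu p q hpq).symm
    · exact fun p q hpq => (hv p q hpq).symm

/-- The grammic monoid of rank `n`. -/
abbrev Grammic (n : ℕ) : Type := (grammicCon n).Quotient

/-- The semigroup `T` satisfies the identity `u = v` (`u`, `v` non-empty words in countably many
variables). -/
def Satisfies (T : Type) [Semigroup T] (u v : FreeSemigroup ℕ) : Prop :=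
  ∀ φ : FreeSemigroup ℕ →ₙ* T, φ u = φ v

/-- Classes of semigroups. -/
abbrev Cls : Type 1 := ∀ (T : Type) [Semigroup T], Prop

/-- `var(S)`. -/
def varOf (S : Type) [Semigroup S] : Cls :=
  fun T _ => ∀ u v : FreeSemigroup ℕ, Satisfies S u v → Satisfies T u v

/-- Commutative semigroups. -/
def Com : Cls := fun T _ => ∀ a b : T, a * b = b * a

/-- A variety of semigroups: the class of all semigroups satisfying some set of identities. -/
def IsVariety (V : Cls) : Prop :=
  ∃ E : Set (FreeSemigroup ℕ × FreeSemigroup ℕ), ∀ (T : Type) [Semigroup T],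
    V T ↔ ∀ e ∈ E, Satisfies T e.1 e.2

/-- `U ∨ W`: the smallest variety containing both `U` and `W`. -/
def join (U W : Cls) : Cls :=
  fun T _ => ∀ V : Cls, IsVariety V → (∀ (A : Type) [Semigroup A], U A → V A) →
    (∀ (A : Type) [Semigroup A], W A → V A) → V T

/-- the power `x^(k+1)` in a semigroup -/
def sp {T : Type} [Semigroup T] (x : T) : ℕ → T
  | 0 => x
  | k + 1 => sp x k * x

lemma map_sp {A B : Type} [Semigroup A] [Semigroup B] (φ : A →ₙ* B) (x : A) (k : ℕ) :
    φ (sp x k) = sp (φ x) k := by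
  induction k with
  | zero => rfl
  | succ k ih => simp only [sp, map_mul, ih]

/-- the identity `x^(j+1) y x^(i+1) = x^(i+1) y x^(j+1)` -/
def lhs (i j : ℕ) : FreeSemigroup ℕ :=
  sp (FreeSemigroup.of 0) j * FreeSemigroup.of 1 * sp (FreeSemigroup.of 0) i

lemma sat_finite (F : Type) [Semigroup F] [Finite F] :
    ∃ i j : ℕ, i < j ∧ Satisfies F (lhs i j) (lhs j i) := by
  obtain ⟨i, j, hij, h⟩ := Finite.exists_ne_map_eq_of_infinite
    (fun i : ℕ => fun x : F => sp x i)
  have key : ∀ i j : ℕ, (fun x : F => sp x i) = (fun x : F => sp x j) →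
      Satisfies F (lhs i j) (lhs j i) := by
    intro i j h φ
    unfold lhs
    simp only [map_mul, map_sp]
    have h0 : sp (φ (FreeSemigroup.of 0)) i = sp (φ (FreeSemigroup.of 0)) j :=
      congrFun h (φ (FreeSemigroup.of 0))
    rw [h0]
  rcases lt_or_gt_of_ne hij with hlt | hlt
  · exact ⟨i, j, hlt, key i j h⟩
  · exact ⟨j, i, hlt, key j i h.symm⟩

lemma sat_com (T : Type) [Semigroup T] (hT : Com T) (i j : ℕ) :
    Satisfies T (lhs i j) (lhs j i) := by
  intro φ
  unfold lhs
  simp only [map_mul]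
  rw [hT (φ (sp (FreeSemigroup.of 0) j) * φ (FreeSemigroup.of 1)) (φ (sp (FreeSemigroup.of 0) i)),
    hT (φ (sp (FreeSemigroup.of 0) j)) (φ (FreeSemigroup.of 1)), mul_assoc]

lemma isSub_bound {n : ℕ} {a b : Fin n} (hab : a < b) (i j N : ℕ) (p q : Fin n)
    (s : List (Fin n))
    (hs : IsSub p q (List.replicate j b ++ List.replicate N a ++ List.replicate i b) s) :
    s.length ≤ N + i ∨ s.length ≤ j + i := by
  obtain ⟨h1, h2, -⟩ := hs
  obtain ⟨s12, s3, rfl, h12, h3⟩ := List.sublist_append_iff.mp h1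
  obtain ⟨s1, s2, rfl, h1, h2'⟩ := List.sublist_append_iff.mp h12
  obtain ⟨k1, hk1, rfl⟩ := List.sublist_replicate_iff.mp h1
  obtain ⟨k2, hk2, rfl⟩ := List.sublist_replicate_iff.mp h2'
  obtain ⟨k3, hk3, rfl⟩ := List.sublist_replicate_iff.mp h3
  simp only [List.length_append, List.length_replicate]
  by_cases e1 : k1 = 0
  · left; omega
  by_cases e2 : k2 = 0
  · right; omega
  exfalso
  rw [List.pairwise_append, List.pairwise_append] at h2
  have := h2.1.2.2 b (by simp [List.mem_replicate, e1]) a (by simp [List.mem_replicate, e2])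
  exact absurd this (not_le.mpr hab)

lemma toList_pow {α : Type} (x : α) (k : ℕ) :
    FreeMonoid.toList ((FreeMonoid.of x) ^ k) = List.replicate k x := by
  induction k with
  | zero => rfl
  | succ k ih =>
    rw [pow_succ, FreeMonoid.toList_mul, ih, FreeMonoid.toList_of, List.replicate_succ']

lemma sp_coe {n : ℕ} (x : FreeMonoid (Fin n)) (k : ℕ) :
    sp (x : Grammic n) k = ((x ^ (k + 1) : FreeMonoid (Fin n)) : Grammic n) := by
  induction k with
  | zero => simp [sp]
  | succ k ih => rw [sp, ih, ← Con.coe_mul, ← pow_succ]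

lemma not_sat_grammic {n : ℕ} (hn : 2 ≤ n) {i j : ℕ} (hij : i < j) :
    ¬ Satisfies (Grammic n) (lhs i j) (lhs j i) := by
  intro hsat
  set a : Fin n := ⟨0, by omega⟩ with ha
  set b : Fin n := ⟨1, by omega⟩ with hb
  have hab : a < b := by rw [ha, hb, Fin.mk_lt_mk]; omega
  set N := j + 2 with hN
  set X : FreeMonoid (Fin n) := FreeMonoid.of b with hX
  set Y : FreeMonoid (Fin n) := (FreeMonoid.of a) ^ N with hY
  have h1 := hsat (FreeSemigroup.lift (fun m : ℕ => if m = 0 then (X : Grammic n) else (Y : Grammic n)))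
  have hval : ∀ i j : ℕ, (FreeSemigroup.lift
      (fun m : ℕ => if m = 0 then (X : Grammic n) else (Y : Grammic n))) (lhs i j)
      = ((X ^ (j + 1) * Y * X ^ (i + 1) : FreeMonoid (Fin n)) : Grammic n) := by
    intro i j
    unfold lhs
    simp only [map_mul, map_sp, FreeSemigroup.lift_of, if_true, one_ne_zero, if_false, sp_coe,
      Con.coe_mul]
  rw [hval, hval] at h1
  have h2 := (Con.eq _).mp h1
  have h3 : gram (List.replicate (j + 1) b ++ List.replicate N a ++ List.replicate (i + 1) b)
      (List.replicate (i + 1) b ++ List.replicate N a ++ List.replicate (j + 1) b) := by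
    have h4 : gram (FreeMonoid.toList (X ^ (j + 1) * Y * X ^ (i + 1)))
      (FreeMonoid.toList (X ^ (i + 1) * Y * X ^ (j + 1))) := h2
    simp only [FreeMonoid.toList_mul, hX, hY, toList_pow] at h4
    exact h4
  have h5 := h3 a b hab.le
  have h6 : N + (j + 1) ≤ ell a b
      (List.replicate (i + 1) b ++ List.replicate N a ++ List.replicate (j + 1) b) := by
    have : IsSub a b (List.replicate (i + 1) b ++ List.replicate N a ++ List.replicate (j + 1) b)
        (List.replicate N a ++ List.replicate (j + 1) b) := by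
      refine ⟨?_, ?_, ?_⟩
      · rw [List.append_assoc]
        exact List.sublist_append_right _ _
      · rw [List.pairwise_append]
        refine ⟨List.pairwise_replicate.mpr (Or.inr le_rfl),
          List.pairwise_replicate.mpr (Or.inr le_rfl), ?_⟩
        intro x hx y hy
        rw [List.eq_of_mem_replicate hx, List.eq_of_mem_replicate hy]
        exact hab.le
      · intro x hx
        rw [List.mem_append] at hx
        rcases hx with hx | hx
        · rw [List.eq_of_mem_replicate hx]; exact ⟨le_rfl, hab.le⟩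
        · rw [List.eq_of_mem_replicate hx]; exact ⟨hab.le, le_rfl⟩
    have := le_ell this
    simpa using this
  obtain ⟨s, hs, hs'⟩ := exists_ell a b
    (List.replicate (j + 1) b ++ List.replicate N a ++ List.replicate (i + 1) b)
  have h7 := isSub_bound hab (i + 1) (j + 1) N a b s hs
  rw [hs', h5] at h7
  omega

/-- For every `n ≥ 2` and every finite semigroup `F` (in particular for every finite monoid), the
variety `var(G_n)` generated by the grammic monoid of rank `n` is neither `var(F)` nor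
`var(F) ∨ Com`. -/
theorem main (n : ℕ) (hn : 2 ≤ n) (F : Type) [Semigroup F] [Finite F] :
    ¬ (∀ (T : Type) [Semigroup T], varOf (Grammic n) T ↔ varOf F T) ∧
    ¬ (∀ (T : Type) [Semigroup T], varOf (Grammic n) T ↔ join (varOf F) Com T) := by
  obtain ⟨i, j, hij, hF⟩ := sat_finite F
  have hG : varOf (Grammic n) (Grammic n) := fun u v h => h
  refine ⟨fun h => ?_, fun h => ?_⟩
  · exact not_sat_grammic hn hij ((h (Grammic n)).mp hG _ _ hF)
  · have := (h (Grammic n)).mp hG
      (fun T _ => Satisfies T (lhs i j) (lhs j i))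
      ⟨{(lhs i j, lhs j i)}, fun T _ => by simp⟩
      (fun A _ hA => hA _ _ hF) (fun A _ hA => sat_com A hA i j)
    exact not_sat_grammic hn hij this

/-- Q1 of MP_2928c2 has a negative answer, and it fails for every `n ≥ 2`. -/
theorem result :
    (∀ n : ℕ, 2 ≤ n → ∀ (F : Type) [Semigroup F] [Finite F],
      ¬ (∀ (T : Type) [Semigroup T], varOf (Grammic n) T ↔ varOf F T) ∧
      ¬ (∀ (T : Type) [Semigroup T], varOf (Grammic n) T ↔ join (varOf F) Com T)) ∧
    ¬ (∀ n : ℕ, 1 ≤ n → ∃ (F : Type) (_ : Monoid F), Finite F ∧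
      ((∀ (T : Type) [Semigroup T], varOf (Grammic n) T ↔ varOf F T) ∨
        (∀ (T : Type) [Semigroup T], varOf (Grammic n) T ↔ join (varOf F) Com T))) := by
  refine ⟨fun n hn F _ _ => main n hn F, fun h => ?_⟩
  obtain ⟨F, hm, hfin, h'⟩ := h 2 (by norm_num)
  have := main 2 le_rfl F
  rcases h' with h' | h'
  · exact this.1 h'
  · exact this.2 h'

end Pool.Agent.Results.MP_2928c2_al.GrammicNotFinite
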